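import Pool.Agent.N805.VP.Stm3
import Pool.Agent.N756.VP.THIN

/-! # Project VP (helper805): thinning of a configuration, upper bound (helper756, helper123) -/

set_option autoImplicit false

open MeasureTheory Set Filter Topology

namespace Pool.Agent.N123.VP

open Pool.Agent.N805.VP
open Pool.Agent.N756.VP (f1 cov_eq cnt_U f1_U)

lemma prod_diff (A : Finset ℤ) (P Q : ℤ → ℝ) (h0 : ∀ a ∈ A, 0 ≤ Q a) (h1 : ∀ a ∈ A, Q a ≤ P a)
    (h2 : ∀ a ∈ A, P a ≤ 1) : ∏ a ∈ A, P a ≤ ∏ a ∈ A, Q a + ∑ a ∈ A, (P a - Q a) := by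
  classical
  induction A using Finset.induction_on with
  | empty => simp
  | insert a s ha ih =>
    rw [Finset.prod_insert ha, Finset.prod_insert ha, Finset.sum_insert ha]
    have h3 := ih (fun b hb => h0 b (Finset.mem_insert_of_mem hb))
      (fun b hb => h1 b (Finset.mem_insert_of_mem hb)) (fun b hb => h2 b (Finset.mem_insert_of_mem hb))
    have h4 := h0 a (Finset.mem_insert_self _ _)
    have h5 := h1 a (Finset.mem_insert_self _ _)
    have h6 := h2 a (Finset.mem_insert_self _ _)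
    have h7 : ∏ b ∈ s, Q b ≤ 1 := Finset.prod_le_one
      (fun b hb => h0 b (Finset.mem_insert_of_mem hb))
      (fun b hb => (h1 b (Finset.mem_insert_of_mem hb)).trans (h2 b (Finset.mem_insert_of_mem hb)))
    have h8 : 0 ≤ ∏ b ∈ s, Q b := Finset.prod_nonneg
      fun b hb => h0 b (Finset.mem_insert_of_mem hb)
    have h9 : 0 ≤ ∑ b ∈ s, (P b - Q b) := Finset.sum_nonneg fun b hb => by
      have := h1 b (Finset.mem_insert_of_mem hb)
      linarith
    have h10 : P a * ∏ b ∈ s, P b ≤ P a * (∏ b ∈ s, Q b + ∑ b ∈ s, (P b - Q b)) :=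
      mul_le_mul_of_nonneg_left h3 (h4.trans h5)
    have h11 : P a * ∑ b ∈ s, (P b - Q b) ≤ 1 * ∑ b ∈ s, (P b - Q b) :=
      mul_le_mul_of_nonneg_right h6 h9
    have h12 : (P a - Q a) * ∏ b ∈ s, Q b ≤ (P a - Q a) * 1 :=
      mul_le_mul_of_nonneg_left h7 (by linarith)
    nlinarith

lemma one_cell {z : ℝ} (hz0 : 0 ≤ z) (hz1 : z ≤ 1) (n : ℕ) :
    (1 - z) ^ n ≤ z * (1 - f1 n) + (1 - z) ∧
    z * (1 - f1 n) + (1 - z) - (1 - z) ^ n ≤ (n.descFactorial 2 : ℝ) := by
  unfold f1
  rcases Nat.eq_zero_or_pos n with h | h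
  · subst h
    simp
  · rw [if_neg h.ne']
    have h1 : (1 - z) ^ n ≤ (1 - z) ^ 1 :=
      pow_le_pow_of_le_one (by linarith) (by linarith) h
    have h2 := one_add_mul_le_pow (show -2 ≤ -z by linarith) n
    have h3 : (1:ℝ) ≤ n := by exact_mod_cast h
    have h4 : (n.descFactorial 2 : ℝ) = n * (n - 1) := by
      obtain ⟨m, rfl⟩ : ∃ m, n = m + 1 := ⟨n - 1, by omega⟩
      rw [Nat.succ_descFactorial_succ, Nat.descFactorial_one]
      push_cast
      ring
    rw [h4]
    rw [show (1 + -z : ℝ) = 1 - z by ring] at h2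
    constructor
    · linarith
    · nlinarith

theorem THIN2 : S_THIN2 := by
  classical
  intro J x h hh A z hz0 hz1
  have hz2 : 0 ≤ 1 - z := by linarith
  have hz3 : 1 - z ≤ 1 := by linarith
  have hf0 : f1 0 = 0 := by
    unfold f1
    simp
  have hint : ∀ S : Finset ℤ, Integrable fun t => f1 (cnt J x (U h S) t) := fun S =>
    int_cnt (U_meas h S) (U_bdd h hh S) f1 hf0
  have hint2 : Integrable fun t => (1 - (1 - z) ^ cnt J x (U h A) t) :=
    int_cnt (U_meas h A) (U_bdd h hh A) (fun n => 1 - (1 - z) ^ n) (by simp)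
  have hint3 : ∀ a : ℤ, Integrable fun t => ((tup J x (fun _ : Fin 2 => cell h a) t).card : ℝ) :=
    fun a => int_tup one_le_two (fun _ => cell_meas h a) ⟨_, fun _ => cell_bdd hh le_rfl⟩
  have hsum : ∑ S ∈ A.powerset, z ^ S.card * (1 - z) ^ (A.card - S.card) * cov J x (U h S) =
      ∫ t, ∑ S ∈ A.powerset, z ^ S.card * (1 - z) ^ (A.card - S.card) * f1 (cnt J x (U h S) t) := by
    rw [integral_finsetSum]
    · refine Finset.sum_congr rfl fun S _ => ?_
      rw [cov_eq (U_meas h S), integral_const_mul]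
    · intro S _
      exact (hint S).const_mul _
  have hsum2 : ∑ a ∈ A, mom J x (fun _ : Fin 2 => cell h a) =
      ∫ t, ∑ a ∈ A, ((tup J x (fun _ : Fin 2 => cell h a) t).card : ℝ) := by
    rw [integral_finsetSum]
    · rfl
    · intro a _
      exact hint3 a
  rw [hsum, hsum2, ← integral_add (integrable_finsetSum _ fun S _ => (hint S).const_mul _)
    (integrable_finsetSum _ fun a _ => hint3 a)]
  refine integral_mono hint2 ((integrable_finsetSum _ fun S _ => (hint S).const_mul _).add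
    (integrable_finsetSum _ fun a _ => hint3 a)) fun t => ?_
  simp only [Pi.add_apply]
  have hexp : ∀ g : ℤ → ℝ, ∏ a ∈ A, (z * g a + (1 - z)) =
      ∑ S ∈ A.powerset, z ^ S.card * (1 - z) ^ (A.card - S.card) * ∏ a ∈ S, g a := by
    intro g
    rw [Finset.prod_add]
    refine Finset.sum_congr rfl fun S hS => ?_
    rw [Finset.prod_mul_distrib, Finset.prod_const, Finset.prod_const,
      Finset.card_sdiff_of_subset (Finset.mem_powerset.1 hS)]
    ring
  have h1 : ∑ S ∈ A.powerset, z ^ S.card * (1 - z) ^ (A.card - S.card) = 1 := by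
    have h2 := hexp fun _ => 1
    simp only [Finset.prod_const_one, mul_one] at h2
    rw [← h2]
    exact Finset.prod_eq_one fun a _ => by ring
  have h2 := hexp fun a => 1 - f1 (cnt J x (cell h a) t)
  have h3 : ∑ S ∈ A.powerset, z ^ S.card * (1 - z) ^ (A.card - S.card) * f1 (cnt J x (U h S) t) =
      1 - ∏ a ∈ A, (z * (1 - f1 (cnt J x (cell h a) t)) + (1 - z)) := by
    have h5 : ∑ S ∈ A.powerset, z ^ S.card * (1 - z) ^ (A.card - S.card) * f1 (cnt J x (U h S) t) +
        ∏ a ∈ A, (z * (1 - f1 (cnt J x (cell h a) t)) + (1 - z)) = 1 := by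
      rw [h2, ← Finset.sum_add_distrib]
      refine Eq.trans (Finset.sum_congr rfl fun S _ => ?_) h1
      rw [f1_U hh]
      ring
    linarith
  rw [h3]
  have hle1 : ∀ n : ℕ, z * (1 - f1 n) + (1 - z) ≤ 1 := by
    intro n
    unfold f1
    split_ifs <;> linarith
  have h4 := prod_diff A (fun a => z * (1 - f1 (cnt J x (cell h a) t)) + (1 - z))
    (fun a => (1 - z) ^ cnt J x (cell h a) t) (fun a _ => pow_nonneg hz2 _)
    (fun a _ => (one_cell hz0 hz1 _).1) (fun a _ => hle1 _)
  have h5 : ∑ a ∈ A, ((z * (1 - f1 (cnt J x (cell h a) t)) + (1 - z)) -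
      (1 - z) ^ cnt J x (cell h a) t) ≤
      ∑ a ∈ A, ((tup J x (fun _ : Fin 2 => cell h a) t).card : ℝ) := by
    refine Finset.sum_le_sum fun a _ => ?_
    rw [tup_const]
    exact (one_cell hz0 hz1 _).2
  rw [cnt_U hh, ← Finset.prod_pow_eq_pow_sum]
  linarith

end Pool.Agent.N123.VP
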